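import Pool.Agent.Y304.STR.Ind

/-! The function field of a Kummer cover is a purely transcendental extension (job STR-EXT). -/

set_option autoImplicit false

open MvPolynomial Pool.Agent.Y192.OG Pool.Agent.Y192.KC

namespace Pool.Agent.Y304.STR

open Pool.Agent.Y379.KG (LL LL_apply lm_single xm_smul xm_sum ep_lm mkQ_eq_iff)
open Pool.Agent.Y153.KZ (yy yy_ne ep_laur aeval_scale exists_form ep_unit exists_emb xm_single)

section

variable {n : ℕ} {L : Type} [Field L] [Algebra ℂ L]

theorem ep_expand (z : Fin n → Lˣ) (g : Lau n) :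
    ep z g = ∑ m ∈ g.coeff.support, g.coeff m • (xm z m : L) := by
  have hg : g = ∑ m ∈ g.coeff.support, AddMonoidAlgebra.single m (g.coeff m) := by
    conv_lhs => rw [← AddMonoidAlgebra.sum_coeff_single g]
    rfl
  have h1 := congrArg (ep z) hg
  rw [map_sum] at h1
  rw [h1]
  exact Finset.sum_congr rfl fun m _ => ep_single z m _

theorem xm_pow (y : Fin n → Lˣ) (m : ℕ) (a : Fin n → ℤ) :
    xm (fun i => y i ^ m) a = xm y a ^ m := by
  unfold xm
  rw [← Finset.prod_pow]
  refine Finset.prod_congr rfl fun i _ => ?_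
  change (y i ^ m) ^ a i = (y i ^ a i) ^ m
  rw [← zpow_natCast (y i) m, ← zpow_natCast (y i ^ a i) m, ← zpow_mul, ← zpow_mul, mul_comm]

theorem zpow_mem' {F : Type} [Field F] [Algebra F L] (T : IntermediateField F L) {u : L}
    (hu : u ∈ T) (a : ℤ) : u ^ a ∈ T := by
  rcases a with a | a
  · rw [Int.ofNat_eq_natCast, zpow_natCast]
    exact pow_mem hu a
  · rw [zpow_negSucc]
    exact T.inv_mem (pow_mem hu _)

/-- elements of a field generated by algebraic elements -/
theorem alg_adjoin (R : Subalgebra ℂ L) (S : Set L) (h : ∀ s ∈ S, IsAlgebraic R s) (a : L)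
    (ha : a ∈ IntermediateField.adjoin ℂ S) : IsAlgebraic R a := by
  induction ha using IntermediateField.adjoin_induction with
  | mem x hx => exact h x hx
  | algebraMap x =>
    have h1 : algebraMap ℂ L x = algebraMap R L (algebraMap ℂ R x) := rfl
    rw [h1]
    exact isAlgebraic_algebraMap _
  | add x y _ _ hx hy => exact hx.add hy
  | inv x _ hx => exact hx.inv
  | mul x y _ _ hx hy => exact hx.mul hy

/-- generators of a subfield, inside the subfield -/
theorem adjoin_top {M : IntermediateField ℂ L} (S : Set M)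
    (h : IntermediateField.adjoin ℂ ((fun a : M => (a : L)) '' S) = M) :
    IntermediateField.adjoin ℂ S = ⊤ := by
  have h1 : (IntermediateField.adjoin ℂ S).map M.val = M := by
    rw [IntermediateField.adjoin_map]
    exact h
  rw [eq_top_iff]
  intro a _
  have h2 : (a : L) ∈ (IntermediateField.adjoin ℂ S).map M.val := by
    rw [h1]
    exact a.2
  obtain ⟨b, hb, hba⟩ := h2
  have h3 : b = a := Subtype.ext hba
  rw [← h3]
  exact hb

end

/-- STR-EXT -/
theorem t_ext : St_ext := by
  intro n r X K _ _ x hI ρ γ Γ F' B S a hγ hΓ hSat hgr hrel K' _ _ x' hx' hgen m hm0 hem L _ _ t w hZ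
  -- the coordinates do not vanish
  have ht : ∀ i, t i ≠ 0 := by
    intro i h0
    have h1 := (hZ.van (MvPolynomial.X i) 1 (isHomogeneous_X ℂ i)).1 (by
      rw [aeval_X, h0, zero_pow hm0.ne'])
    exact X.hX i h1
  have ht0 := ht 0
  let y : Fin n → Lˣ := fun i => Units.mk0 (t i.succ / t 0) (div_ne_zero (ht _) ht0)
  let z : Fin n → Lˣ := fun i => y i ^ m
  have hz : yy z = fun i => (t i / t 0) ^ m := by
    funext i
    refine Fin.cases ?_ (fun i => ?_) i
    · show (1 : L) = _
      rw [div_self ht0, one_pow]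
    · rfl
  -- values of forms
  have hval : ∀ (f : MvPolynomial (Fin (n + 1)) ℂ) (k : ℕ), f.IsHomogeneous k →
      aeval (fun i => t i ^ m) f = (t 0 ^ m) ^ k * ep z (laur f) := by
    intro f k hf
    rw [ep_laur, hz, ← aeval_scale hf]
    congr 2
    funext i
    rw [div_pow, mul_div_cancel₀ _ (pow_ne_zero m ht0)]
  have hker : ∀ g : Lau n, ep x g = 0 ↔ ep z g = 0 := by
    intro g
    obtain ⟨u, D, U, hu, hU, e⟩ := exists_form g
    have h1 : ep x g = 0 ↔ ep x (laur U) = 0 := by
      rw [← e, map_mul, mul_eq_zero]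
      exact ⟨Or.inl, fun h => h.resolve_right (ep_unit x hu)⟩
    have h2 : ep z g = 0 ↔ ep z (laur U) = 0 := by
      rw [← e, map_mul, mul_eq_zero]
      exact ⟨Or.inl, fun h => h.resolve_right (ep_unit z hu)⟩
    rw [h1, h2, hI U D hU, ← hZ.van U D hU, hval U D hU, mul_eq_zero]
    exact ⟨fun h => h.resolve_left (pow_ne_zero _ (pow_ne_zero _ ht0)), Or.inr⟩
  let z' : Fin ρ → Lˣ := fun i => xm z (γ i)
  have hz' : ∀ g : Lau ρ, ep z' g = ep z (lm γ g) := fun g => ep_lm z γ g
  obtain ⟨σ, hσ⟩ := exists_emb x' z' hgen (fun g => by rw [hx', hz', hker])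
  have hσy : ∀ i : Fin ρ, σ (x' i : K') = (z' i : L) := by
    intro i
    have h1 : ∀ {F : Type} [Field F] [Algebra ℂ F] (u : Fin ρ → Fˣ),
        ep u (AddMonoidAlgebra.single (Pi.single i 1) 1) = (u i : F) := by
      intro F _ _ u
      rw [ep_single, xm_single, one_smul]
    rw [← h1 x', hσ, h1 z']
  have hwt : ∀ j, X.wt m j * X.e j = m * X.d j := fun j =>
    Nat.div_mul_cancel ((hem j).mul_right _)
  have hzF : ∀ j, (w j / t 0 ^ X.wt m j) ^ X.e j = ep z (laur (X.F j)) := by
    intro j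
    rw [div_pow, hZ.eqn j, hval _ _ (X.hF j), ← pow_mul, ← pow_mul, hwt, mul_comm,
      mul_div_assoc, div_self (pow_ne_zero _ ht0), mul_one]
  -- the relations
  have hrelz : ∀ j, ep z (B j) ≠ 0 ∧ ep z (S j) ≠ 0 ∧ ep z (lm γ (F' j)) ≠ 0 ∧
      ep z (B j) ^ X.e j * (w j / t 0 ^ X.wt m j) ^ X.e j =
        ep z (lm γ (F' j)) * (xm z (a j) : L) * ep z (S j) ^ X.e j := by
    intro j
    obtain ⟨h1, h2, h3, h4⟩ := hrel j
    refine ⟨fun h => h1 ((hker _).2 h), fun h => h2 ((hker _).2 h),
      fun h => h3 ((hker _).2 h), ?_⟩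
    have h5 : ep z (B j ^ X.e j * laur (X.F j) -
        lm γ (F' j) * AddMonoidAlgebra.single (a j) 1 * S j ^ X.e j) = 0 := by
      rw [← hker, map_sub, h4, sub_self]
    rw [map_sub, map_mul, map_mul, map_mul, map_pow, map_pow, ep_single, one_smul, sub_eq_zero,
      ← hzF] at h5
    exact h5
  have hgrz : ∀ g : Lau n, ep z g = 0 → ∀ q, ep z (comp Γ q g) = 0 := by
    intro g hg q
    rw [← hker] at hg ⊢
    exact hgr g hg q
  have hLL : ∀ b, LL γ b ∈ Γ := fun b => (hΓ _).2 ⟨b, rfl⟩
  obtain ⟨k, bt, co, hco, hbt⟩ := exists_splt Γ hSat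
  have hind := ind z γ Γ hLL bt co hco hbt hgrz
  -- the elements
  let zL : Fin ρ → L := fun i => (xm y (γ i) : Lˣ)
  let vL : Fin r → L := fun j => w j / t 0 ^ X.wt m j * ep z (B j) /
    (ep z (S j) * (xm y (((m / X.e j : ℕ) : ℤ) • a j) : Lˣ))
  have hzL : ∀ i, zL i ^ m = σ (x' i) := by
    intro i
    rw [hσy]
    change ((xm y (γ i) : Lˣ) : L) ^ m = ((xm z (γ i) : Lˣ) : L)
    rw [← Units.val_pow_eq_pow_val, ← xm_pow]
  have hvL : ∀ j, vL j ^ X.e j = σ (ep x' (F' j)) := by
    intro j
    obtain ⟨hB, hS, hF, hr⟩ := hrelz j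
    rw [hσ, hz']
    have h1 : ((xm y (((m / X.e j : ℕ) : ℤ) • a j) : Lˣ) : L) ^ X.e j = (xm z (a j) : Lˣ) := by
      rw [← Units.val_pow_eq_pow_val]
      congr 1
      rw [xm_smul, zpow_natCast, ← pow_mul, Nat.div_mul_cancel (hem j)]
      exact (xm_pow y m (a j)).symm
    simp only [vL]
    rw [div_pow, mul_pow, mul_pow, h1, div_eq_iff (mul_ne_zero (pow_ne_zero _ hS)
      (Units.ne_zero _)), mul_comm ((w j / t 0 ^ X.wt m j) ^ X.e j), hr]
    ring
  let M : IntermediateField ℂ L := IntermediateField.adjoin ℂ (Set.range zL ∪ Set.range vL)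
  have hzM : ∀ i, zL i ∈ M := fun i => IntermediateField.subset_adjoin _ _ (Or.inl ⟨i, rfl⟩)
  have hvM : ∀ j, vL j ∈ M := fun j => IntermediateField.subset_adjoin _ _ (Or.inr ⟨j, rfl⟩)
  have hσM : ∀ u, σ u ∈ M := by
    intro u
    have h1 : IntermediateField.adjoin ℂ (Set.range fun i => (x' i : K')) ≤ M.comap σ := by
      rw [IntermediateField.adjoin_le_iff]
      rintro _ ⟨i, rfl⟩
      change σ (x' i) ∈ M
      rw [← hzL]
      exact pow_mem (hzM i) m
    rw [hgen] at h1
    exact h1 (x := u) trivial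
  let φ : K' →ₐ[ℂ] M := σ.codRestrict M.toSubalgebra hσM
  have hφ : ∀ u, ((φ u : M) : L) = σ u := fun _ => rfl
  let s : Fin k → L := fun l => (xm y (bt l) : Lˣ)
  -- all monomials
  have hdec : ∀ e : Fin n → ℤ, ∃ (b : Fin ρ → ℤ), e = ∑ i, b i • γ i + ∑ l, co e l • bt l := by
    intro e
    have h1 : e - ∑ l, co e l • bt l ∈ Γ := by
      rw [← hco, map_sub, map_sum]
      have h2 : ∑ l, co (co e l • bt l) = co e := by
        simp only [map_smul, hbt]
        funext j
        rw [Finset.sum_apply, Finset.sum_eq_single j]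
        · simp
        · intro l _ hl
          rw [Pi.smul_apply, Pi.single_eq_of_ne hl.symm, smul_zero]
        · intro h
          exact absurd (Finset.mem_univ j) h
      rw [h2, sub_self]
    obtain ⟨b, hb⟩ := (hΓ _).1 h1
    exact ⟨b, by rw [← hb]; abel⟩
  let T : IntermediateField M L := IntermediateField.adjoin M (Set.range s)
  have hMT : ∀ u ∈ M, u ∈ T := fun u hu => by
    have : algebraMap M L ⟨u, hu⟩ ∈ T := T.algebraMap_mem _
    exact this
  have hsT : ∀ l, s l ∈ T := fun l => IntermediateField.subset_adjoin _ _ ⟨l, rfl⟩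
  have hyT : ∀ e : Fin n → ℤ, ((xm y e : Lˣ) : L) ∈ T := by
    intro e
    obtain ⟨b, hb⟩ := hdec e
    rw [hb, xm_add, xm_sum, xm_sum, Units.val_mul, Units.coe_prod, Units.coe_prod]
    refine T.mul_mem (T.prod_mem fun i _ => ?_) (T.prod_mem fun l _ => ?_)
    · rw [xm_smul, Units.val_zpow_eq_zpow_val]
      exact zpow_mem' T (hMT _ (hzM i)) _
    · rw [xm_smul, Units.val_zpow_eq_zpow_val]
      exact zpow_mem' T (hsT l) _
  have hepT : ∀ g : Lau n, ep z g ∈ T := by
    intro g
    rw [ep_expand]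
    refine T.sum_mem fun e _ => ?_
    rw [Algebra.smul_def]
    refine T.mul_mem (hMT _ (M.algebraMap_mem _)) ?_
    rw [xm_pow, Units.val_pow_eq_pow_val]
    exact pow_mem (hyT e) m
  have hT : T = ⊤ := by
    rw [eq_top_iff]
    intro u _
    have h1 : u ∈ IntermediateField.adjoin ℂ (Set.range (fun i => t i / t 0) ∪
        Set.range (fun j => w j / t 0 ^ X.wt m j)) := by
      rw [hZ.gen]
      trivial
    have h2 : IntermediateField.adjoin ℂ (Set.range (fun i => t i / t 0) ∪
        Set.range (fun j => w j / t 0 ^ X.wt m j)) ≤ T.restrictScalars ℂ := by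
      rw [IntermediateField.adjoin_le_iff]
      rintro _ (⟨i, rfl⟩ | ⟨j, rfl⟩)
      · change t i / t 0 ∈ T
        refine Fin.cases ?_ (fun i => ?_) i
        · rw [div_self ht0]
          exact T.one_mem
        · have h3 := hyT (Pi.single i 1)
          rw [xm_single] at h3
          exact h3
      · change w j / t 0 ^ X.wt m j ∈ T
        obtain ⟨hB, hS, hF, hr⟩ := hrelz j
        have h3 : w j / t 0 ^ X.wt m j = vL j * (ep z (S j) *
            (xm y (((m / X.e j : ℕ) : ℤ) • a j) : Lˣ)) / ep z (B j) := by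
          simp only [vL]
          rw [div_mul_cancel₀ _ (mul_ne_zero hS (Units.ne_zero _)), mul_div_cancel_right₀ _ hB]
        rw [h3]
        exact T.div_mem (T.mul_mem (hMT _ (hvM j)) (T.mul_mem (hepT _) (hyT _))) (hepT _)
    exact h2 h1
  refine ⟨M, φ, k, s, fun i => ⟨zL i, hzM i⟩, fun j => ⟨vL j, hvM j⟩, fun i => Subtype.ext (hzL i),
    fun j => Subtype.ext (hvL j), ?_, ?_, hT⟩
  · apply adjoin_top
    rw [Set.image_union, ← Set.range_comp, ← Set.range_comp]
    rfl
  · -- algebraic independence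
    let A : Subalgebra ℂ L := (ep z').range
    have hAM : ∀ u ∈ A, u ∈ M := by
      rintro _ ⟨g, rfl⟩
      have h1 : ep z' g = σ (ep x' g) := (hσ g).symm
      change ep z' g ∈ M
      rw [h1]
      exact hσM _
    let _ : Algebra A M := (Subalgebra.inclusion (S := A) (T := M.toSubalgebra) hAM).toAlgebra
    have : IsScalarTower A M L := IsScalarTower.of_algebraMap_eq fun _ => rfl
    have halgM : Algebra.IsAlgebraic A M := by
      refine ⟨fun u => ?_⟩
      have h1 : IsAlgebraic A (u : L) := by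
        refine alg_adjoin A _ ?_ _ u.2
        rintro _ (⟨i, rfl⟩ | ⟨j, rfl⟩)
        · refine IsAlgebraic.of_pow hm0 ?_
          rw [hzL, hσy]
          have h2 : ((z' i : Lˣ) : L) ∈ A := by
            refine ⟨AddMonoidAlgebra.single (Pi.single i 1) 1, ?_⟩
            change ep z' _ = _
            rw [ep_single, xm_single, one_smul]
          exact isAlgebraic_algebraMap (⟨_, h2⟩ : A)
        · refine IsAlgebraic.of_pow (X.he j) ?_
          rw [hvL, hσ]
          exact isAlgebraic_algebraMap (⟨_, ⟨F' j, rfl⟩⟩ : A)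
      have h3 : Function.Injective (algebraMap M L) := Subtype.val_injective
      exact (isAlgebraic_algebraMap_iff h3).1 h1
    have h1 : AlgebraicIndependent A (fun l => s l ^ m) := by
      have h2 : (fun l => s l ^ m) = fun l => ((xm z (bt l) : Lˣ) : L) := by
        funext l
        rw [xm_pow, Units.val_pow_eq_pow_val]
      rw [h2]
      exact hind
    have h2 : AlgebraicIndependent M (fun l => s l ^ m) := h1.extendScalars M
    have h3 := h2.cardinalMk_le_trdeg
    have h4 : Algebra.IsAlgebraic (IntermediateField.adjoin M (Set.range s)) L := by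
      refine ⟨fun u => ?_⟩
      have h5 : u ∈ T := by
        rw [hT]
        trivial
      exact isAlgebraic_algebraMap (⟨u, h5⟩ : T)
    have h6 : Algebra.IsAlgebraic (Algebra.adjoin M (Set.range s)) L :=
      IntermediateField.isAlgebraic_adjoin_iff_top.1 h4
    exact (Algebra.IsAlgebraic.isTranscendenceBasis_of_le_trdeg_of_finite M s h3).1

end Pool.Agent.Y304.STR
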