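import Pool.Agent.Y192.KC.StrStm
import Pool.Agent.Y153.KZ.Zup
import Pool.Agent.Y379.KG.Desc

/-! Algebraic independence of monomials over a subgroup of exponents (job STR-EXT). -/

set_option autoImplicit false

open MvPolynomial Pool.Agent.Y192.OG Pool.Agent.Y192.KC

namespace Pool.Agent.Y304.STR

open Pool.Agent.Y379.KG (LL LL_apply lm_single xm_smul xm_sum ep_lm mkQ_eq_iff)

/-- a saturated subgroup is a direct summand -/
theorem exists_splt {n : ℕ} (Γ : Submodule ℤ (Fin n → ℤ)) (hs : Sat Γ) :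
    ∃ (k : ℕ) (bt : Fin k → Fin n → ℤ) (co : (Fin n → ℤ) →ₗ[ℤ] (Fin k → ℤ)),
      (∀ m, co m = 0 ↔ m ∈ Γ) ∧ ∀ j, co (bt j) = Pi.single j 1 := by
  have htf : Module.IsTorsionFree ℤ ((Fin n → ℤ) ⧸ Γ) := by
    refine Module.isTorsionFree_iff_smul_eq_zero.mpr ?_
    intro a q ha
    obtain ⟨m, rfl⟩ := Γ.mkQ_surjective q
    rw [← map_smul] at ha
    by_cases ha0 : a = 0
    · exact Or.inl ha0
    · right
      exact (Submodule.Quotient.mk_eq_zero Γ).mpr
        (hs a m ha0 ((Submodule.Quotient.mk_eq_zero Γ).mp ha))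
  have hfree : Module.Free ℤ ((Fin n → ℤ) ⧸ Γ) := Module.free_of_finite_type_torsion_free'
  let b := Module.finBasis ℤ ((Fin n → ℤ) ⧸ Γ)
  have hsur := Γ.mkQ_surjective
  choose f hf using hsur
  refine ⟨Module.finrank ℤ ((Fin n → ℤ) ⧸ Γ), fun j => f (b j),
    (b.equivFun : _ →ₗ[ℤ] _).comp Γ.mkQ, fun m => ?_, fun j => ?_⟩
  · rw [LinearMap.comp_apply]
    constructor
    · intro h
      have h1 : Γ.mkQ m = 0 := b.equivFun.injective (by rw [map_zero]; exact h)
      exact (Submodule.Quotient.mk_eq_zero Γ).mp h1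
    · intro h
      have h1 : Γ.mkQ m = 0 := (Submodule.Quotient.mk_eq_zero Γ).mpr h
      rw [h1, map_zero]
  · rw [LinearMap.comp_apply, hf]
    change b.equivFun (b j) = _
    funext i
    rw [Module.Basis.equivFun_self, Pi.single_apply]
    split_ifs with h1 h2 h2
    · rfl
    · exact absurd h1.symm h2
    · exact absurd h2.symm h1
    · rfl

/-- the components of a Laurent polynomial with exponents in a coset -/
theorem comp_lm {ρ n : ℕ} (γ : Fin ρ → Fin n → ℤ) (Γ : Submodule ℤ (Fin n → ℤ))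
    (hΓ : ∀ a, LL γ a ∈ Γ) (q : (Fin n → ℤ) ⧸ Γ) (g : Lau ρ) (m : Fin n → ℤ) :
    (Γ.mkQ m = q → comp Γ q (lm γ g * AddMonoidAlgebra.single m 1) =
      lm γ g * AddMonoidAlgebra.single m 1) ∧
    (Γ.mkQ m ≠ q → comp Γ q (lm γ g * AddMonoidAlgebra.single m 1) = 0) := by
  induction g using AddMonoidAlgebra.induction_linear with
  | zero =>
    rw [map_zero, zero_mul, comp_zero]
    exact ⟨fun _ => rfl, fun _ => rfl⟩
  | add f g hf hg =>
    rw [map_add, add_mul, comp_add]
    exact ⟨fun h => by rw [hf.1 h, hg.1 h], fun h => by rw [hf.2 h, hg.2 h, add_zero]⟩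
  | single a c =>
    rw [lm_single, AddMonoidAlgebra.single_mul_single]
    have h1 : Γ.mkQ (LL γ a + m) = Γ.mkQ m := by
      rw [mkQ_eq_iff, add_sub_cancel_right]
      exact hΓ a
    exact ⟨fun h => comp_single_pos Γ (h1.trans h) _, fun h => comp_single_neg Γ
      (fun h2 => h (h1.symm.trans h2)) _⟩

section

variable {n ρ k : ℕ} {L : Type} [Field L] [Algebra ℂ L]

/-- the monomials given by a complement are algebraically independent -/
theorem ind (z : Fin n → Lˣ) (γ : Fin ρ → Fin n → ℤ) (Γ : Submodule ℤ (Fin n → ℤ))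
    (hΓ : ∀ a, LL γ a ∈ Γ) (bt : Fin k → Fin n → ℤ) (co : (Fin n → ℤ) →ₗ[ℤ] (Fin k → ℤ))
    (hco : ∀ m, co m = 0 ↔ m ∈ Γ) (hbt : ∀ j, co (bt j) = Pi.single j 1)
    (hgr : ∀ g : Lau n, ep z g = 0 → ∀ q, ep z (comp Γ q g) = 0) :
    AlgebraicIndependent (ep (fun i => xm z (γ i))).range (fun l => ((xm z (bt l) : Lˣ) : L)) := by
  classical
  rw [algebraicIndependent_iff]
  intro p hp
  -- the exponents
  let μ : (Fin k →₀ ℕ) → Fin n → ℤ := fun c => ∑ l, (c l : ℤ) • bt l
  have hμ : ∀ c, co (μ c) = fun l => (c l : ℤ) := by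
    intro c
    simp only [μ, map_sum, map_smul, hbt]
    funext l
    rw [Finset.sum_apply, Finset.sum_eq_single l]
    · simp
    · intro j _ hj
      rw [Pi.smul_apply, Pi.single_eq_of_ne hj.symm, smul_zero]
    · intro h
      exact absurd (Finset.mem_univ l) h
  have hμq : ∀ c c', Γ.mkQ (μ c) = Γ.mkQ (μ c') → c = c' := by
    intro c c' h
    rw [mkQ_eq_iff, ← hco, map_sub, sub_eq_zero, hμ, hμ] at h
    ext l
    have := congrFun h l
    exact_mod_cast this
  have hg : ∀ c, ∃ g : Lau ρ, ep (fun i => xm z (γ i)) g = ((coeff c p : (ep (fun i => xm z (γ i))).range) : L) :=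
    fun c => (coeff c p).2
  choose g hg using hg
  have hsum : ep z (∑ c ∈ p.support, lm γ (g c) * AddMonoidAlgebra.single (μ c) 1) = 0 := by
    rw [map_sum, ← hp, aeval_def, eval₂_eq']
    refine Finset.sum_congr rfl fun c _ => ?_
    rw [map_mul, ep_single, one_smul, ← ep_lm, hg]
    congr 1
    simp only [μ]
    rw [xm_sum, Units.coe_prod]
    refine Finset.prod_congr rfl fun l _ => ?_
    rw [xm_smul, zpow_natCast, Units.val_pow_eq_pow_val]
  ext c
  rw [coeff_zero]
  by_contra hc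
  have hcs : c ∈ p.support := by
    rw [mem_support_iff]
    intro h
    exact hc (by rw [h])
  have h1 := hgr _ hsum (Γ.mkQ (μ c))
  rw [comp_sum', Finset.sum_eq_single c, (comp_lm γ Γ hΓ _ (g c) (μ c)).1 rfl, map_mul, ep_single,
    one_smul, mul_eq_zero] at h1
  · rcases h1 with h1 | h1
    · rw [← ep_lm, hg] at h1
      exact hc h1
    · exact (Units.ne_zero _) h1
  · intro c' _ hc'
    exact (comp_lm γ Γ hΓ _ (g c') (μ c')).2 fun h => hc' (hμq _ _ h)
  · intro h
    exact absurd hcs h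

end

end Pool.Agent.Y304.STR
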